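import Pool.Agent.W472.AC.RothThm

set_option autoImplicit false

/-! # Rational approximation to algebraic numbers, in the form in which it is used -/

namespace Pool.Agent.D0H59.Hall

open Polynomial

lemma abs_ge_one {t : ℤ} (ht : t ≠ 0) : (1 : ℝ) ≤ |(t : ℝ)| := by
  have : (1 : ℤ) ≤ |t| := Int.one_le_abs ht
  exact_mod_cast this

/-- rational numbers -/
lemma dioph1 (θ : ℝ) (hn : (minpoly ℚ θ).natDegree = 1) : ∃ c : ℝ, 0 < c ∧
    ∀ s t : ℤ, t ≠ 0 → (s : ℝ) / t ≠ θ → c ≤ |(t : ℝ)| * |(s : ℝ) / t - θ| := by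
  obtain ⟨r, hr⟩ := minpoly.natDegree_eq_one_iff.mp hn
  have hr' : θ = (r.num : ℝ) / (r.den : ℝ) := by
    rw [← hr]
    exact Rat.cast_def r
  have hden : (0 : ℝ) < r.den := by exact_mod_cast r.den_pos
  refine ⟨1 / r.den, by positivity, fun s t ht hne => ?_⟩
  have htr : (t : ℝ) ≠ 0 := by exact_mod_cast ht
  have e1 : |(t : ℝ)| * |(s : ℝ) / t - θ| = |((s * r.den - r.num * t : ℤ) : ℝ)| / r.den := by
    have e2 : ((s * r.den - r.num * t : ℤ) : ℝ) = ((t : ℝ) * ((s : ℝ) / t - θ)) * r.den := by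
      rw [hr']
      push_cast
      field_simp
    rw [e2, abs_mul _ (r.den : ℝ), abs_of_pos hden, ← abs_mul]
    field_simp
  rw [e1]
  apply div_le_div_of_nonneg_right _ hden.le
  have h0 : s * r.den - r.num * t ≠ 0 := by
    intro h
    apply hne
    rw [hr', div_eq_div_iff htr hden.ne']
    have : ((s * r.den - r.num * t : ℤ) : ℝ) = 0 := by rw [h]; simp
    push_cast at this
    linarith
  exact abs_ge_one h0

/-- normalisation of the sign of the denominator -/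
lemma norm_sign (s t : ℤ) (ht : t ≠ 0) : ∃ (a : ℤ) (b : ℕ), 1 ≤ b ∧ (b : ℝ) = |(t : ℝ)| ∧
    (s : ℝ) / t = (a : ℝ) / b := by
  refine ⟨s * t.sign, t.natAbs, Int.natAbs_pos.mpr ht, by rw [Nat.cast_natAbs]; push_cast; rfl, ?_⟩
  have htr : (t : ℝ) ≠ 0 := by exact_mod_cast ht
  have h1 : ((t.natAbs : ℕ) : ℝ) = |(t : ℝ)| := by rw [Nat.cast_natAbs]; push_cast; rfl
  rw [h1, div_eq_div_iff htr (abs_ne_zero.mpr htr)]
  have h2 : |(t : ℝ)| = (t.sign : ℝ) * t := by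
    have : |t| = t.sign * t := by
      rw [mul_comm, Int.mul_sign_self, Int.natCast_natAbs]
    exact_mod_cast this
  rw [h2]
  push_cast
  ring

/-- quadratic irrational numbers (Liouville) -/
lemma dioph2 (θ : ℝ) (hθ : IsAlgebraic ℚ θ) (hn : (minpoly ℚ θ).natDegree = 2) : ∃ c : ℝ, 0 < c ∧
    ∀ s t : ℤ, t ≠ 0 → (s : ℝ) / t ≠ θ → c ≤ |(t : ℝ)| ^ 2 * |(s : ℝ) / t - θ| := by
  have hirr : Irrational θ := by
    rintro ⟨r, hr⟩
    have h1 : (minpoly ℚ θ).natDegree = 1 := minpoly.natDegree_eq_one_iff.mpr ⟨r, by rw [← hr]; rfl⟩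
    omega
  have hint : IsIntegral ℚ θ := hθ.isIntegral
  obtain ⟨b, hbM, hb⟩ := IsLocalization.integerNormalization_spec (nonZeroDivisors ℤ)
    (minpoly ℚ θ)
  set F := IsLocalization.integerNormalization (nonZeroDivisors ℤ) (minpoly ℚ θ) with hF
  have hb0 : (b : ℤ) ≠ 0 := nonZeroDivisors.ne_zero hbM
  have hinj : Function.Injective (algebraMap ℤ ℚ) := Int.cast_injective
  have hbQ : ((b : ℤ) : ℚ) ≠ 0 := by exact_mod_cast hb0
  have hdeg : F.natDegree = 2 := by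
    rw [← natDegree_map_eq_of_injective hinj, hb, ← hn]
    have : ((b : ℤ) • minpoly ℚ θ) = C ((b : ℤ) : ℚ) * minpoly ℚ θ := by
      rw [zsmul_eq_mul]
      simp
    rw [this, natDegree_C_mul hbQ]
  have hF0 : F ≠ 0 := by
    intro h
    rw [h, natDegree_zero] at hdeg
    omega
  have heval : eval θ (F.map (algebraMap ℤ ℝ)) = 0 := by
    have h1 : F.map (algebraMap ℤ ℝ) = (F.map (algebraMap ℤ ℚ)).map (algebraMap ℚ ℝ) := by
      rw [Polynomial.map_map]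
      congr 1
    rw [h1, hb, eval_map_algebraMap]
    have : ((b : ℤ) • minpoly ℚ θ) = C ((b : ℤ) : ℚ) * minpoly ℚ θ := by
      rw [zsmul_eq_mul]
      simp
    rw [this, map_mul, minpoly.aeval, mul_zero]
  obtain ⟨A, hA, h⟩ := Liouville.exists_pos_real_of_irrational_root hirr hF0 heval
  refine ⟨1 / A, by positivity, fun s t ht _ => ?_⟩
  obtain ⟨a, b', hb1, hbt, hst⟩ := norm_sign s t ht
  have h2 := h a (b' - 1)
  have h3 : (((b' - 1 : ℕ) : ℝ) + 1) = b' := by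
    rw [← Nat.cast_succ]
    congr 1
    omega
  rw [h3, hdeg] at h2
  rw [hst, ← hbt, abs_sub_comm, div_le_iff₀ hA]
  linarith

/-- algebraic numbers of degree at least three (Roth) -/
lemma dioph3 (θ : ℝ) (hθ : IsAlgebraic ℚ θ) (hn : 3 ≤ (minpoly ℚ θ).natDegree) : ∃ c : ℝ, 0 < c ∧
    ∀ s t : ℤ, t ≠ 0 → (s : ℝ) / t ≠ θ → c ^ 2 ≤ |(t : ℝ)| ^ 5 * |(s : ℝ) / t - θ| ^ 2 := by
  have hirr : Irrational θ := by
    rintro ⟨r, hr⟩
    have h1 : (minpoly ℚ θ).natDegree = 1 := minpoly.natDegree_eq_one_iff.mpr ⟨r, by rw [← hr]; rfl⟩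
    omega
  obtain ⟨c, hc, h⟩ := Pool.Agent.W472.AC.roth θ hθ hirr (1 / 2) (by norm_num)
  refine ⟨c, hc, fun s t ht _ => ?_⟩
  obtain ⟨a, b, hb1, hbt, hst⟩ := norm_sign s t ht
  have h2 := h b hb1 a
  have hb0 : (0 : ℝ) < b := by exact_mod_cast hb1
  rw [hst, ← hbt]
  have h3 := pow_le_pow_left₀ hc.le h2 2
  refine h3.trans (le_of_eq ?_)
  have h4 : ((b : ℝ) ^ ((1 : ℝ) + 1 / 2)) ^ 2 = (b : ℝ) ^ 3 := by
    rw [← Real.rpow_natCast, ← Real.rpow_mul hb0.le, ← Real.rpow_natCast]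
    norm_num
  rw [mul_pow, h4]
  have h5 : |(b : ℝ) * θ - a| = (b : ℝ) * |(a : ℝ) / b - θ| := by
    rw [abs_sub_comm, ← abs_of_pos hb0, ← abs_mul, abs_of_pos hb0]
    congr 1
    field_simp
  rw [h5]
  ring

/-- the three cases together -/
theorem dioph (θ : ℝ) (hθ : IsAlgebraic ℚ θ) (w V : ℕ)
    (h1 : (minpoly ℚ θ).natDegree = 1 → w ≤ V) (h2 : (minpoly ℚ θ).natDegree = 2 → 2 * w ≤ V)
    (h3 : 3 ≤ (minpoly ℚ θ).natDegree → 5 * w ≤ 2 * V) : ∃ c : ℝ, 0 < c ∧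
    ∀ s t : ℤ, t ≠ 0 → (s : ℝ) / t ≠ θ → c ≤ |(t : ℝ)| ^ V * |(s : ℝ) / t - θ| ^ w := by
  have hpos : 0 < (minpoly ℚ θ).natDegree := minpoly.natDegree_pos hθ.isIntegral
  rcases (show (minpoly ℚ θ).natDegree = 1 ∨ (minpoly ℚ θ).natDegree = 2 ∨
    3 ≤ (minpoly ℚ θ).natDegree by omega) with hn | hn | hn
  · obtain ⟨c, hc, h⟩ := dioph1 θ hn
    refine ⟨c ^ w, by positivity, fun s t ht hne => ?_⟩
    calc c ^ w ≤ (|(t : ℝ)| * |(s : ℝ) / t - θ|) ^ w := pow_le_pow_left₀ hc.le (h s t ht hne) w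
      _ = |(t : ℝ)| ^ w * |(s : ℝ) / t - θ| ^ w := mul_pow _ _ _
      _ ≤ |(t : ℝ)| ^ V * |(s : ℝ) / t - θ| ^ w := by
        apply mul_le_mul_of_nonneg_right _ (by positivity)
        exact pow_le_pow_right₀ (abs_ge_one ht) (h1 hn)
  · obtain ⟨c, hc, h⟩ := dioph2 θ hθ hn
    refine ⟨c ^ w, by positivity, fun s t ht hne => ?_⟩
    calc c ^ w ≤ (|(t : ℝ)| ^ 2 * |(s : ℝ) / t - θ|) ^ w := pow_le_pow_left₀ hc.le (h s t ht hne) w
      _ = |(t : ℝ)| ^ (2 * w) * |(s : ℝ) / t - θ| ^ w := by rw [mul_pow, ← pow_mul]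
      _ ≤ |(t : ℝ)| ^ V * |(s : ℝ) / t - θ| ^ w := by
        apply mul_le_mul_of_nonneg_right _ (by positivity)
        exact pow_le_pow_right₀ (abs_ge_one ht) (h2 hn)
  · obtain ⟨c, hc, h⟩ := dioph3 θ hθ hn
    refine ⟨c ^ w, by positivity, fun s t ht hne => ?_⟩
    refine le_of_sq_le_sq ?_ (by positivity)
    calc (c ^ w) ^ 2 = (c ^ 2) ^ w := by rw [← pow_mul, ← pow_mul, mul_comm]
      _ ≤ (|(t : ℝ)| ^ 5 * |(s : ℝ) / t - θ| ^ 2) ^ w :=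
        pow_le_pow_left₀ (by positivity) (h s t ht hne) w
      _ = |(t : ℝ)| ^ (5 * w) * (|(s : ℝ) / t - θ| ^ w) ^ 2 := by
        rw [mul_pow, ← pow_mul, ← pow_mul, ← pow_mul, mul_comm 2 w]
      _ ≤ |(t : ℝ)| ^ (2 * V) * (|(s : ℝ) / t - θ| ^ w) ^ 2 := by
        apply mul_le_mul_of_nonneg_right _ (by positivity)
        exact pow_le_pow_right₀ (abs_ge_one ht) (h3 hn)
      _ = (|(t : ℝ)| ^ V * |(s : ℝ) / t - θ| ^ w) ^ 2 := by
        rw [mul_pow, ← pow_mul |(t : ℝ)| V 2, mul_comm 2 V]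

end Pool.Agent.D0H59.Hall
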