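import Pool.Agent.D0H59.Hall.Local

set_option autoImplicit false

/-! # Hall's inequality for the values of two binary forms -/

namespace Pool.Agent.D0H59.Hall

open Polynomial

/-- the values of a form at proportional vectors -/
lemma hom_smul {σ R : Type*} [Fintype σ] [CommRing R] (F : MvPolynomial σ ℤ) (d : ℕ)
    (hF : F.IsHomogeneous d) (c : R) (v : σ → R) :
    MvPolynomial.aeval (fun i => c * v i) F = c ^ d * MvPolynomial.aeval v F := by
  rw [MvPolynomial.aeval_def, MvPolynomial.aeval_def, MvPolynomial.eval₂_eq',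
    MvPolynomial.eval₂_eq', Finset.mul_sum]
  refine Finset.sum_congr rfl fun e he => ?_
  have h1 : ∏ i, (c * v i) ^ e i = c ^ d * ∏ i, v i ^ e i := by
    simp only [mul_pow]
    rw [Finset.prod_mul_distrib, Finset.prod_pow_eq_pow_sum]
    congr 2
    have h2 := hF (MvPolynomial.mem_support_iff.mp he)
    rw [← h2, Finsupp.weight_apply, Finsupp.sum_fintype]
    · simp
    · simp
  rw [h1]
  ring

/-- the polynomial `F (X, 1)` -/
noncomputable def dehom (F : MvPolynomial (Fin 2) ℤ) : ℚ[X] :=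
  (MvPolynomial.aeval ![(X : ℤ[X]), 1] F).map (Int.castRingHom ℚ)

lemma dehom_natDegree (F : MvPolynomial (Fin 2) ℤ) (d : ℕ) (hF : F.IsHomogeneous d) :
    (dehom F).natDegree ≤ d := by
  unfold dehom
  refine (natDegree_map_le).trans ?_
  have h := MvPolynomial.aeval_natDegree_le (n := 1) F hF.totalDegree_le ![(X : ℤ[X]), 1] (by
    intro i
    fin_cases i
    · exact natDegree_X_le
    · simp)
  rwa [mul_one] at h

/-- the values of `F` from those of `F (X, 1)` -/
lemma value (F : MvPolynomial (Fin 2) ℤ) (d : ℕ) (hF : F.IsHomogeneous d) (s t : ℤ) (ht : t ≠ 0) :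
    ((MvPolynomial.eval ![s, t] F : ℤ) : ℝ) = (t : ℝ) ^ d * ev (dehom F) ((s : ℝ) / t) := by
  have htr : (t : ℝ) ≠ 0 := by exact_mod_cast ht
  have h1 : ((MvPolynomial.eval ![s, t] F : ℤ) : ℝ) = MvPolynomial.aeval ![(s : ℝ), (t : ℝ)] F := by
    have := MvPolynomial.aeval_algebraMap_apply (A := ℤ) ℝ ![s, t] F
    have h2 : (algebraMap ℤ ℝ ∘ ![s, t]) = ![(s : ℝ), (t : ℝ)] := by
      funext i
      fin_cases i <;> rfl
    rw [h2] at this
    rw [this]
    rfl
  have h2 : (![(s : ℝ), (t : ℝ)] : Fin 2 → ℝ) = fun i => (t : ℝ) * ![(s : ℝ) / t, 1] i := by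
    funext i
    fin_cases i
    · simp [mul_div_cancel₀ _ htr]
    · simp
  rw [h1, h2, hom_smul F d hF]
  congr 1
  unfold ev dehom
  rw [Polynomial.map_map, eval_map]
  have h3 : ((algebraMap ℚ ℝ).comp (Int.castRingHom ℚ)) = algebraMap ℤ ℝ := by
    ext
    simp
  rw [h3, ← aeval_def, MvPolynomial.comp_aeval_apply]
  congr 1
  congr 1
  funext i
  fin_cases i
  · simp
  · simp

/-- the inequality for `|s| ≤ |t|` -/
theorem half_ineq (p q m : ℕ) (hp : 2 ≤ p) (hq : 2 ≤ q) (hpq : 5 ≤ p + q) (hm : 1 ≤ m)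
    (F G : MvPolynomial (Fin 2) ℤ) (hF : F.IsHomogeneous (q * m)) (hG : G.IsHomogeneous (p * m)) :
    ∃ C : ℝ, 0 < C ∧ ∀ s t : ℤ, t ≠ 0 → |s| ≤ |t| →
      (MvPolynomial.eval ![s, t] F) ^ p - (MvPolynomial.eval ![s, t] G) ^ q ≠ 0 →
      |((MvPolynomial.eval ![s, t] F : ℤ) : ℝ)| ^ (p * q - p - q) ≤
        C * |(((MvPolynomial.eval ![s, t] F) ^ p - (MvPolynomial.eval ![s, t] G) ^ q : ℤ) : ℝ)| ^ q := by
  set N := p * q - p - q with hN
  have hpq2 : p + q ≤ p * q := by nlinarith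
  have hNadd : N + (p + q) = p * q := by omega
  have hN1 : 1 ≤ N := by
    have : p + q + 1 ≤ p * q := by nlinarith
    omega
  set f := dehom F with hf
  set g := dehom G with hg
  set h := f ^ p - g ^ q with hh
  have hfd := dehom_natDegree F _ hF
  have hgd := dehom_natDegree G _ hG
  -- the value of the difference
  have hD : ∀ s t : ℤ, t ≠ 0 → (((MvPolynomial.eval ![s, t] F) ^ p -
      (MvPolynomial.eval ![s, t] G) ^ q : ℤ) : ℝ) =
      (t : ℝ) ^ (q * m * p) * ev h ((s : ℝ) / t) := by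
    intro s t ht
    push_cast
    rw [value F _ hF s t ht, value G _ hG s t ht, mul_pow, mul_pow, ← pow_mul, ← pow_mul]
    have e1 : p * m * q = q * m * p := by ring
    rw [e1, ← mul_sub]
    congr 1
    rw [hh]
    unfold ev
    simp only [Polynomial.map_sub, Polynomial.map_pow, eval_sub, eval_pow]
    rfl
  -- integers with a proportional power
  have key : ∀ (c d : ℝ), c ≠ 0 → d ≠ 0 → (∀ z : ℝ, c * ev f z ^ p = d * ev h z) →
      ∃ C : ℝ, 0 < C ∧ ∀ s t : ℤ, t ≠ 0 → |s| ≤ |t| →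
      (MvPolynomial.eval ![s, t] F) ^ p - (MvPolynomial.eval ![s, t] G) ^ q ≠ 0 →
      |((MvPolynomial.eval ![s, t] F : ℤ) : ℝ)| ^ N ≤
        C * |(((MvPolynomial.eval ![s, t] F) ^ p - (MvPolynomial.eval ![s, t] G) ^ q : ℤ) : ℝ)| ^ q := by
    intro c d hc hd hcd
    refine ⟨|d / c| ^ q, by positivity, fun s t ht _ _ => ?_⟩
    have h1 : ((MvPolynomial.eval ![s, t] F : ℤ) : ℝ) ^ p =
        d / c * (((MvPolynomial.eval ![s, t] F) ^ p - (MvPolynomial.eval ![s, t] G) ^ q : ℤ) : ℝ) := by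
      rw [hD s t ht, value F _ hF s t ht, mul_pow, ← pow_mul, ← hf]
      have := hcd ((s : ℝ) / t)
      rw [div_mul_eq_mul_div, eq_div_iff hc]
      linear_combination ((t : ℝ) ^ (q * m * p)) * this
    rw [← mul_pow, ← abs_mul, ← h1]
    set x := (MvPolynomial.eval ![s, t] F : ℤ) with hx
    rcases eq_or_ne x 0 with h0 | h0
    · rw [h0]
      simp [show N ≠ 0 by omega]
    · have h2 : (1 : ℝ) ≤ |(x : ℝ)| := abs_ge_one h0
      rw [abs_pow, ← pow_mul]
      exact pow_le_pow_right₀ h2 (by omega)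
  by_cases hf0 : f = 0
  · refine ⟨1, one_pos, fun s t ht _ _ => ?_⟩
    rw [value F _ hF s t ht]
    have : ev f ((s : ℝ) / t) = 0 := by
      rw [hf0]
      simp [ev]
    rw [← hf, this, mul_zero, abs_zero, zero_pow (by omega)]
    positivity
  by_cases hh0 : h = 0
  · refine ⟨1, one_pos, fun s t ht _ hne => ?_⟩
    exfalso
    apply hne
    have h1 := hD s t ht
    have h2 : ev h ((s : ℝ) / t) = 0 := by
      rw [hh0]
      simp [ev]
    rw [h2, mul_zero] at h1
    exact_mod_cast h1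
  by_cases hg0 : g = 0
  · apply key 1 1 one_ne_zero one_ne_zero
    intro z
    rw [one_mul, one_mul, hh, hg0, zero_pow (by omega), sub_zero]
    simp [ev]
  by_cases hj : jac p q f g = 0
  · obtain ⟨c, d, hc, hd, hcd⟩ := degenerate p q (by omega) (by omega) f g hf0 hh0 hj
    apply key (c : ℝ) (d : ℝ) (by exact_mod_cast hc) (by exact_mod_cast hd)
    intro z
    have := congrArg (fun P => ev P z) hcd
    simp only [ev, Polynomial.map_mul, Polynomial.map_pow, Polynomial.map_sub, eval_mul, eval_pow,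
      eval_sub, map_C, eval_C] at this
    rw [hh]
    simp only [ev, Polynomial.map_pow, Polynomial.map_sub, eval_pow, eval_sub]
    exact this
  -- the main case
  obtain ⟨c, hc, hQ⟩ := segment_ineq p q m hp hq hpq hm f g hfd hgd hf0 hg0 hh0 hj
  refine ⟨c⁻¹, by positivity, fun s t ht hst hne => ?_⟩
  have htr : (t : ℝ) ≠ 0 := by exact_mod_cast ht
  have htp : 0 < |(t : ℝ)| := abs_pos.mpr htr
  have hz : (s : ℝ) / t ∈ Set.Icc (-1 : ℝ) 1 := by
    rw [Set.mem_Icc, ← abs_le, abs_div, div_le_one htp]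
    exact_mod_cast hst
  have hne' : ev h ((s : ℝ) / t) ≠ 0 := by
    intro h0
    apply hne
    have h1 := hD s t ht
    rw [h0, mul_zero] at h1
    exact_mod_cast h1
  have h1 := hQ _ hz s t ht rfl hne'
  rw [hD s t ht, value F _ hF s t ht, ← hf, abs_mul, abs_mul, abs_pow, abs_pow, mul_pow, mul_pow,
    ← pow_mul, ← pow_mul]
  have e1 : |(t : ℝ)| ^ (q * m * p * q) = |(t : ℝ)| ^ (q * m * N) * |(t : ℝ)| ^ (q * m * (p + q)) := by
    rw [← pow_add]
    congr 1
    rw [← mul_add, hNadd]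
    ring
  rw [e1]
  have h2 : |ev f ((s : ℝ) / t)| ^ N ≤ c⁻¹ * (|(t : ℝ)| ^ (q * m * (p + q)) *
      |ev h ((s : ℝ) / t)| ^ q) := by
    rw [inv_mul_eq_div, le_div_iff₀ hc]
    linarith
  calc |(t : ℝ)| ^ (q * m * N) * |ev f ((s : ℝ) / t)| ^ N ≤ |(t : ℝ)| ^ (q * m * N) *
      (c⁻¹ * (|(t : ℝ)| ^ (q * m * (p + q)) * |ev h ((s : ℝ) / t)| ^ q)) := by gcongr
    _ = _ := by ring

/-- exchange of the variables -/
lemma eval_swap (F : MvPolynomial (Fin 2) ℤ) (s t : ℤ) :
    MvPolynomial.eval ![s, t] (MvPolynomial.rename (Equiv.swap (0 : Fin 2) 1) F) =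
      MvPolynomial.eval ![t, s] F := by
  rw [MvPolynomial.eval_rename]
  congr 2
  funext i
  fin_cases i <;> simp

/-- Hall's inequality for the values of two binary forms -/
theorem forms_x (p q m : ℕ) (hp : 2 ≤ p) (hq : 2 ≤ q) (hm : 1 ≤ m)
    (F G : MvPolynomial (Fin 2) ℤ) (hF : F.IsHomogeneous (q * m)) (hG : G.IsHomogeneous (p * m)) :
    ∃ C : ℝ, 0 < C ∧ ∀ s t : ℤ,
      (MvPolynomial.eval ![s, t] F) ^ p - (MvPolynomial.eval ![s, t] G) ^ q ≠ 0 →
      |((MvPolynomial.eval ![s, t] F : ℤ) : ℝ)| ^ (p * q - p - q) ≤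
        C * |(((MvPolynomial.eval ![s, t] F) ^ p - (MvPolynomial.eval ![s, t] G) ^ q : ℤ) : ℝ)| ^ q := by
  rcases (show 5 ≤ p + q ∨ p + q = 4 by omega) with hpq | hpq
  · obtain ⟨C, hC, h⟩ := half_ineq p q m hp hq hpq hm F G hF hG
    obtain ⟨C', hC', h'⟩ := half_ineq p q m hp hq hpq hm
      (MvPolynomial.rename (Equiv.swap (0 : Fin 2) 1) F)
      (MvPolynomial.rename (Equiv.swap (0 : Fin 2) 1) G)
      (hF.rename_isHomogeneous) (hG.rename_isHomogeneous)
    refine ⟨max C C', lt_max_of_lt_left hC, fun s t hne => ?_⟩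
    by_cases h0 : s = 0 ∧ t = 0
    · exfalso
      apply hne
      have hzero : ∀ (E : MvPolynomial (Fin 2) ℤ) (d : ℕ), 1 ≤ d → E.IsHomogeneous d →
          MvPolynomial.eval ![s, t] E = 0 := by
        intro E d hd hE
        have h1 := hom_smul (R := ℤ) E d hE 0 ![s, t]
        rw [zero_pow (by omega), zero_mul] at h1
        have h2 : (fun i => (0 : ℤ) * ![s, t] i) = ![s, t] := by
          funext i
          fin_cases i
          · simp [h0.1]
          · simp [h0.2]
        rw [h2] at h1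
        exact h1
      rw [hzero F _ (Nat.mul_pos (by omega) hm) hF, hzero G _ (Nat.mul_pos (by omega) hm) hG,
        zero_pow (by omega), zero_pow (by omega), sub_zero]
    rcases le_total |s| |t| with hst | hst
    · have ht : t ≠ 0 := by
        rintro rfl
        rw [abs_zero] at hst
        exact h0 ⟨abs_nonpos_iff.mp hst, rfl⟩
      refine (h s t ht hst hne).trans ?_
      gcongr
      exact le_max_left _ _
    · have hs : s ≠ 0 := by
        rintro rfl
        rw [abs_zero] at hst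
        exact h0 ⟨rfl, abs_nonpos_iff.mp hst⟩
      have h1 := h' t s hs hst (by rw [eval_swap, eval_swap]; exact hne)
      rw [eval_swap, eval_swap] at h1
      refine h1.trans ?_
      gcongr
      exact le_max_right _ _
  · have hp2 : p = 2 := by omega
    have hq2 : q = 2 := by omega
    subst hp2 hq2
    refine ⟨1, one_pos, fun s t hne => ?_⟩
    have h1 := abs_ge_one hne
    simp only [Nat.reduceMul, Nat.reduceSub, pow_zero, one_mul]
    exact one_le_pow₀ h1

end Pool.Agent.D0H59.Hall
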