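import Pool.Agent.D0H59.Hall.Mult
import Pool.Agent.D0H59.Hall.Dioph

set_option autoImplicit false

/-! # The inequality near a point of the real projective line -/

namespace Pool.Agent.D0H59.Hall

open Polynomial Topology Filter

/-- evaluation of a rational polynomial at a real number -/
noncomputable def ev (f : ℚ[X]) (z : ℝ) : ℝ := (f.map (algebraMap ℚ ℝ)).eval z

lemma continuous_ev (f : ℚ[X]) : Continuous (ev f) := (f.map (algebraMap ℚ ℝ)).continuous

/-- the inequality to be proved at the point `z` -/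
def Q (N V q : ℕ) (f h : ℚ[X]) (c z : ℝ) : Prop :=
  ∀ s t : ℤ, t ≠ 0 → z = (s : ℝ) / t → ev h z ≠ 0 →
    c * |ev f z| ^ N ≤ |(t : ℝ)| ^ V * |ev h z| ^ q

lemma jac_map (p q : ℕ) (f g : ℚ[X]) : (jac p q f g).map (algebraMap ℚ ℝ) =
    jac p q (f.map (algebraMap ℚ ℝ)) (g.map (algebraMap ℚ ℝ)) := by
  simp only [jac, Polynomial.map_sub, Polynomial.map_mul, derivative_map, map_natCast,
    Polynomial.map_natCast]

theorem local_ineq (p q m : ℕ) (hp : 2 ≤ p) (hq : 2 ≤ q) (hpq : 5 ≤ p + q) (hm : 1 ≤ m)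
    (f g : ℚ[X]) (hf : f.natDegree ≤ q * m) (hg : g.natDegree ≤ p * m) (hf0 : f ≠ 0) (hg0 : g ≠ 0)
    (hh0 : f ^ p - g ^ q ≠ 0) (hj : jac p q f g ≠ 0) (θ : ℝ) : ∃ c : ℝ, 0 < c ∧
    ∀ᶠ z in 𝓝 θ, Q (p * q - p - q) (q * m * (p + q)) q f (f ^ p - g ^ q) c z := by
  set h := f ^ p - g ^ q with hh
  set N := p * q - p - q with hN
  set V := q * m * (p + q) with hV
  have hinj : Function.Injective (algebraMap ℚ ℝ) := (algebraMap ℚ ℝ).injective
  by_cases hroot : ev h θ = 0
  · -- a root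
    have hθ : IsAlgebraic ℚ θ := ⟨h, hh0, by rw [← eval_map_algebraMap]; exact hroot⟩
    have hhR : h.map (algebraMap ℚ ℝ) ≠ 0 := (Polynomial.map_ne_zero_iff hinj).mpr hh0
    have hfR : f.map (algebraMap ℚ ℝ) ≠ 0 := (Polynomial.map_ne_zero_iff hinj).mpr hf0
    have hgR : g.map (algebraMap ℚ ℝ) ≠ 0 := (Polynomial.map_ne_zero_iff hinj).mpr hg0
    have hjR : jac p q (f.map (algebraMap ℚ ℝ)) (g.map (algebraMap ℚ ℝ)) ≠ 0 := by
      rw [← jac_map]
      exact (Polynomial.map_ne_zero_iff hinj).mpr hj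
    have hhmap : h.map (algebraMap ℚ ℝ) =
        f.map (algebraMap ℚ ℝ) ^ p - g.map (algebraMap ℚ ℝ) ^ q := by
      rw [hh, Polynomial.map_sub, Polynomial.map_pow, Polynomial.map_pow]
    set e := rootMultiplicity θ (h.map (algebraMap ℚ ℝ)) with he
    set α := rootMultiplicity θ (f.map (algebraMap ℚ ℝ)) with hα
    set v := rootMultiplicity θ ((jac p q f g).map (algebraMap ℚ ℝ)) with hv
    have he1 : 1 ≤ e := (rootMultiplicity_pos hhR).mpr hroot
    have hm1 := mult_ineq p q (by omega) (by omega) (f.map (algebraMap ℚ ℝ))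
      (g.map (algebraMap ℚ ℝ)) θ hfR hgR (by rw [← hhmap]; exact hhR) hjR
      (by rw [← hhmap]; exact he1)
    rw [← hhmap, ← jac_map] at hm1
    have hvn := mult_deg θ hθ _ (jac p q f g) hj le_rfl
    have hjd := jac_natDegree p q m hm (by omega) (by omega) f g hf hg (by nlinarith)
    set n := (minpoly ℚ θ).natDegree with hn
    have hvn' : v * n ≤ (p + q) * m - 2 := hvn.trans hjd
    have hpqm : 5 ≤ (p + q) * m := by nlinarith
    have hpq2 : p + q ≤ p * q := by nlinarith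
    have hNadd : N + (p + q) = p * q := by omega
    -- the exponent
    set w := q * e - N * α with hw
    have hw1 : w ≤ q * (1 + v) := by
      have h1 : q * e ≤ N * α + q * (1 + v) := by
        have h2 : p * q * α = N * α + (p + q) * α := by rw [← hNadd]; ring
        have h3 : q * (1 + v) = q + q * v := by ring
        change q * e + (p + q) * α ≤ p * q * α + q + q * v at hm1
        omega
      omega
    have hVq : V = q * ((p + q) * m) := by rw [hV]; ring
    obtain ⟨c0, hc0, hd⟩ := dioph θ hθ w V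
      (by
        intro hn1
        rw [← hn] at hn1
        rw [hn1, mul_one] at hvn'
        rw [hVq]
        refine hw1.trans (Nat.mul_le_mul_left q ?_)
        omega)
      (by
        intro hn2
        rw [← hn] at hn2
        rw [hn2] at hvn'
        rw [hVq]
        calc 2 * w ≤ 2 * (q * (1 + v)) := Nat.mul_le_mul_left 2 hw1
          _ = q * (2 + v * 2) := by ring
          _ ≤ q * ((p + q) * m) := Nat.mul_le_mul_left q (by omega))
      (by
        intro hn3
        rw [← hn] at hn3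
        have h4 : v * 3 ≤ (p + q) * m - 2 := (Nat.mul_le_mul_left v hn3).trans hvn'
        rw [hVq]
        have h5 : 3 * (5 * w) ≤ 3 * (2 * (q * ((p + q) * m))) := by
          calc 3 * (5 * w) = 15 * w := by ring
            _ ≤ 15 * (q * (1 + v)) := Nat.mul_le_mul_left 15 hw1
            _ = q * (15 + 5 * (v * 3)) := by ring
            _ ≤ q * (6 * ((p + q) * m)) := Nat.mul_le_mul_left q (by omega)
            _ = _ := by ring
        omega)
    -- factorisations
    obtain ⟨h1, hh1, hh1'⟩ := exists_eq_pow_rootMultiplicity_mul_and_not_dvd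
      (h.map (algebraMap ℚ ℝ)) hhR θ
    obtain ⟨f1, hf1⟩ := pow_rootMultiplicity_dvd (f.map (algebraMap ℚ ℝ)) θ
    rw [← he] at hh1
    rw [← hα] at hf1
    have hh1θ : h1.eval θ ≠ 0 := by
      intro h0
      exact hh1' (dvd_iff_isRoot.mpr h0)
    have hη : 0 < |h1.eval θ| / 2 := by positivity
    set η := |h1.eval θ| / 2 with hηdef
    set κ := |f1.eval θ| + 1 with hκ
    have hκ0 : 0 < κ := by positivity
    refine ⟨c0 * η ^ q / κ ^ N, by positivity, ?_⟩
    have ev1 : ∀ᶠ z in 𝓝 θ, η < |h1.eval z| := by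
      have : Tendsto (fun z => |h1.eval z|) (𝓝 θ) (𝓝 |h1.eval θ|) :=
        (h1.continuous.abs).tendsto θ
      exact this.eventually (lt_mem_nhds (by rw [hηdef]; linarith [abs_pos.mpr hh1θ]))
    have ev2 : ∀ᶠ z in 𝓝 θ, |f1.eval z| < κ := by
      have : Tendsto (fun z => |f1.eval z|) (𝓝 θ) (𝓝 |f1.eval θ|) :=
        (f1.continuous.abs).tendsto θ
      exact this.eventually (gt_mem_nhds (by rw [hκ]; linarith))
    have ev3 : ∀ᶠ z in 𝓝 θ, |z - θ| < 1 := by
      have : Tendsto (fun z : ℝ => |z - θ|) (𝓝 θ) (𝓝 |θ - θ|) :=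
        ((continuous_id.sub continuous_const).abs).tendsto θ
      rw [sub_self, abs_zero] at this
      exact this.eventually (gt_mem_nhds one_pos)
    filter_upwards [ev1, ev2, ev3] with z z1 z2 z3
    intro s t ht hz hne
    have hhz : ev h z = (z - θ) ^ e * h1.eval z := by
      unfold ev
      rw [hh1, eval_mul, eval_pow, eval_sub, eval_X, eval_C]
    have hfz : ev f z = (z - θ) ^ α * f1.eval z := by
      unfold ev
      rw [hf1, eval_mul, eval_pow, eval_sub, eval_X, eval_C]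
    have hzθ : z ≠ θ := by
      rintro rfl
      exact hne hroot
    have hD := hd s t ht (by rw [← hz]; exact hzθ)
    rw [← hz] at hD
    set δ := |z - θ| with hδ
    have hδ0 : 0 < δ := abs_pos.mpr (sub_ne_zero.mpr hzθ)
    have hb1 : |ev f z| ^ N ≤ δ ^ (N * α) * κ ^ N := by
      rw [hfz, abs_mul, abs_pow, ← hδ, mul_pow, ← pow_mul, mul_comm α N]
      gcongr
    have hb2 : δ ^ (q * e) * η ^ q ≤ |ev h z| ^ q := by
      rw [hhz, abs_mul, abs_pow, ← hδ, mul_pow, ← pow_mul, mul_comm e q]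
      gcongr
    have hb3 : δ ^ (N * α) * δ ^ w ≤ δ ^ (q * e) := by
      rw [← pow_add]
      exact pow_le_pow_of_le_one hδ0.le z3.le (by omega)
    calc c0 * η ^ q / κ ^ N * |ev f z| ^ N ≤ c0 * η ^ q / κ ^ N * (δ ^ (N * α) * κ ^ N) := by
          gcongr
      _ = c0 * (δ ^ (N * α) * η ^ q) := by field_simp
      _ ≤ (|(t : ℝ)| ^ V * δ ^ w) * (δ ^ (N * α) * η ^ q) := by
          apply mul_le_mul_of_nonneg_right hD (by positivity)
      _ = |(t : ℝ)| ^ V * ((δ ^ (N * α) * δ ^ w) * η ^ q) := by ring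
      _ ≤ |(t : ℝ)| ^ V * (δ ^ (q * e) * η ^ q) := by gcongr
      _ ≤ |(t : ℝ)| ^ V * |ev h z| ^ q := by gcongr
  · -- not a root
    set η := |ev h θ| / 2 with hη
    have hη0 : 0 < η := by positivity
    set κ := |ev f θ| + 1 with hκ
    have hκ0 : 0 < κ := by positivity
    refine ⟨η ^ q / κ ^ N, by positivity, ?_⟩
    have ev1 : ∀ᶠ z in 𝓝 θ, η < |ev h z| := by
      have : Tendsto (fun z => |ev h z|) (𝓝 θ) (𝓝 |ev h θ|) :=
        ((continuous_ev h).abs).tendsto θ
      exact this.eventually (lt_mem_nhds (by rw [hη]; linarith [abs_pos.mpr hroot]))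
    have ev2 : ∀ᶠ z in 𝓝 θ, |ev f z| < κ := by
      have : Tendsto (fun z => |ev f z|) (𝓝 θ) (𝓝 |ev f θ|) :=
        ((continuous_ev f).abs).tendsto θ
      exact this.eventually (gt_mem_nhds (by rw [hκ]; linarith))
    filter_upwards [ev1, ev2] with z z1 z2
    intro s t ht _ _
    have h1 : (1 : ℝ) ≤ |(t : ℝ)| ^ V := one_le_pow₀ (abs_ge_one ht)
    calc η ^ q / κ ^ N * |ev f z| ^ N ≤ η ^ q / κ ^ N * κ ^ N := by gcongr
      _ = 1 * η ^ q := by field_simp
      _ ≤ |(t : ℝ)| ^ V * |ev h z| ^ q := by gcongr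

/-- the inequality on the segment `[-1, 1]` -/
theorem segment_ineq (p q m : ℕ) (hp : 2 ≤ p) (hq : 2 ≤ q) (hpq : 5 ≤ p + q) (hm : 1 ≤ m)
    (f g : ℚ[X]) (hf : f.natDegree ≤ q * m) (hg : g.natDegree ≤ p * m) (hf0 : f ≠ 0) (hg0 : g ≠ 0)
    (hh0 : f ^ p - g ^ q ≠ 0) (hj : jac p q f g ≠ 0) : ∃ c : ℝ, 0 < c ∧
    ∀ z ∈ Set.Icc (-1 : ℝ) 1, Q (p * q - p - q) (q * m * (p + q)) q f (f ^ p - g ^ q) c z := by
  refine isCompact_Icc.induction_on
    (p := fun S => ∃ c : ℝ, 0 < c ∧ ∀ z ∈ S,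
      Q (p * q - p - q) (q * m * (p + q)) q f (f ^ p - g ^ q) c z) ?_ ?_ ?_ ?_
  · exact ⟨1, one_pos, fun z hz => absurd hz (Set.notMem_empty z)⟩
  · rintro S T hST ⟨c, hc, h⟩
    exact ⟨c, hc, fun z hz => h z (hST hz)⟩
  · rintro S T ⟨c, hc, h⟩ ⟨c', hc', h'⟩
    refine ⟨min c c', lt_min hc hc', ?_⟩
    intro z hz s t ht hzz hne
    rcases hz with hz | hz
    · refine le_trans ?_ (h z hz s t ht hzz hne)
      gcongr
      exact min_le_left _ _
    · refine le_trans ?_ (h' z hz s t ht hzz hne)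
      gcongr
      exact min_le_right _ _
  · intro θ _
    obtain ⟨c, hc, h⟩ := local_ineq p q m hp hq hpq hm f g hf hg hf0 hg0 hh0 hj θ
    exact ⟨{z | Q (p * q - p - q) (q * m * (p + q)) q f (f ^ p - g ^ q) c z},
      mem_nhdsWithin_of_mem_nhds h, c, hc, fun z hz => hz⟩

end Pool.Agent.D0H59.Hall
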