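import Mathlib

set_option autoImplicit false

/-! # Multiplicities of the roots of `f ^ p - g ^ q` -/

namespace Pool.Agent.D0H59.Hall

open Polynomial

/-- the multiplicity of a root, times its degree -/
lemma mult_deg (θ : ℝ) (hθ : IsAlgebraic ℚ θ) : ∀ (N : ℕ) (j : ℚ[X]), j ≠ 0 → j.natDegree ≤ N →
    rootMultiplicity θ (j.map (algebraMap ℚ ℝ)) * (minpoly ℚ θ).natDegree ≤ j.natDegree := by
  have hint : IsIntegral ℚ θ := hθ.isIntegral
  have hmu0 : minpoly ℚ θ ≠ 0 := minpoly.ne_zero hint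
  have hmud : 0 < (minpoly ℚ θ).natDegree := minpoly.natDegree_pos hint
  have hinj : Function.Injective (algebraMap ℚ ℝ) := (algebraMap ℚ ℝ).injective
  intro N
  induction N with
  | zero =>
    intro j hj hN
    have h2 : rootMultiplicity θ (j.map (algebraMap ℚ ℝ)) = 0 := by
      apply rootMultiplicity_eq_zero
      rw [IsRoot.def, eval_map_algebraMap]
      intro h0
      have := natDegree_le_of_dvd (minpoly.dvd ℚ θ h0) hj
      omega
    rw [h2, zero_mul]
    exact Nat.zero_le _
  | succ N ih =>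
    intro j hj hN
    by_cases hroot : aeval θ j = 0
    · obtain ⟨j1, hj1⟩ := minpoly.dvd ℚ θ hroot
      have hj10 : j1 ≠ 0 := by
        rintro rfl
        rw [mul_zero] at hj1
        exact hj hj1
      have hdeg : j.natDegree = (minpoly ℚ θ).natDegree + j1.natDegree := by
        rw [hj1, natDegree_mul hmu0 hj10]
      have h1 := ih j1 hj10 (by omega)
      have hmul : rootMultiplicity θ (j.map (algebraMap ℚ ℝ)) =
          rootMultiplicity θ ((minpoly ℚ θ).map (algebraMap ℚ ℝ)) +
            rootMultiplicity θ (j1.map (algebraMap ℚ ℝ)) := by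
        rw [hj1, Polynomial.map_mul, rootMultiplicity_mul]
        apply mul_ne_zero
        · exact (Polynomial.map_ne_zero_iff hinj).mpr hmu0
        · exact (Polynomial.map_ne_zero_iff hinj).mpr hj10
      have hsep : ((minpoly ℚ θ).map (algebraMap ℚ ℝ)).Separable :=
        (minpoly.irreducible hint).separable.map
      have h2 := rootMultiplicity_le_one_of_separable hsep θ
      rw [hmul, hdeg]
      calc (rootMultiplicity θ ((minpoly ℚ θ).map (algebraMap ℚ ℝ)) +
            rootMultiplicity θ (j1.map (algebraMap ℚ ℝ))) * (minpoly ℚ θ).natDegree ≤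
          (1 + rootMultiplicity θ (j1.map (algebraMap ℚ ℝ))) * (minpoly ℚ θ).natDegree :=
            Nat.mul_le_mul_right _ (by omega)
        _ = (minpoly ℚ θ).natDegree + rootMultiplicity θ (j1.map (algebraMap ℚ ℝ)) *
            (minpoly ℚ θ).natDegree := by ring
        _ ≤ _ := by omega
    · have h2 : rootMultiplicity θ (j.map (algebraMap ℚ ℝ)) = 0 := by
        apply rootMultiplicity_eq_zero
        rw [IsRoot.def, eval_map_algebraMap]
        exact hroot
      rw [h2, zero_mul]
      exact Nat.zero_le _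

variable {K : Type*} [Field K]

lemma mult_pow (f : K[X]) (hf : f ≠ 0) (θ : K) (n : ℕ) :
    rootMultiplicity θ (f ^ n) = n * rootMultiplicity θ f := by
  induction n with
  | zero => rw [pow_zero, zero_mul, ← C_1, rootMultiplicity_C]
  | succ n ih =>
    rw [pow_succ, rootMultiplicity_mul (mul_ne_zero (pow_ne_zero _ hf) hf), ih]
    ring

/-- the numerator of the logarithmic derivative of `f ^ p / g ^ q` -/
noncomputable def jac (p q : ℕ) (f g : K[X]) : K[X] :=
  C (p : K) * derivative f * g - C (q : K) * f * derivative g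

lemma jac_left (p q : ℕ) (hq : 1 ≤ q) (hp : 1 ≤ p) (f g : K[X]) :
    f * derivative (f ^ p - g ^ q) - C (p : K) * derivative f * (f ^ p - g ^ q) =
      g ^ (q - 1) * jac p q f g := by
  obtain ⟨a, rfl⟩ : ∃ a, q = a + 1 := ⟨q - 1, by omega⟩
  obtain ⟨b, rfl⟩ : ∃ b, p = b + 1 := ⟨p - 1, by omega⟩
  simp only [jac, derivative_sub, derivative_pow, Nat.add_sub_cancel]
  ring

lemma jac_right (p q : ℕ) (hq : 1 ≤ q) (hp : 1 ≤ p) (f g : K[X]) :
    g * derivative (f ^ p - g ^ q) - C (q : K) * derivative g * (f ^ p - g ^ q) =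
      f ^ (p - 1) * jac p q f g := by
  obtain ⟨a, rfl⟩ : ∃ a, q = a + 1 := ⟨q - 1, by omega⟩
  obtain ⟨b, rfl⟩ : ∃ b, p = b + 1 := ⟨p - 1, by omega⟩
  simp only [jac, derivative_sub, derivative_pow, Nat.add_sub_cancel]
  ring

lemma dvd_aux (c : K) (f h : K[X]) (θ : K) (α e : ℕ) (he : 1 ≤ e) (hf : (X - C θ) ^ α ∣ f)
    (hh : (X - C θ) ^ e ∣ h) :
    (X - C θ) ^ (α + e - 1) ∣ f * derivative h - C c * derivative f * h := by
  have h1 : (X - C θ) ^ (e - 1) ∣ derivative h := pow_sub_one_dvd_derivative_of_pow_dvd hh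
  have h2 : (X - C θ) ^ (α - 1) ∣ derivative f := pow_sub_one_dvd_derivative_of_pow_dvd hf
  apply dvd_sub
  · have h3 : α + e - 1 = α + (e - 1) := by omega
    rw [h3, pow_add]
    exact mul_dvd_mul hf h1
  · refine (pow_dvd_pow (X - C θ) (show α + e - 1 ≤ (α - 1) + e by omega)).trans ?_
    rw [pow_add, mul_assoc]
    exact Dvd.dvd.mul_left (mul_dvd_mul h2 hh) _

/-- the inequality for the multiplicities at a root of `f ^ p - g ^ q` -/
theorem mult_ineq (p q : ℕ) (hp : 1 ≤ p) (hq : 1 ≤ q) (f g : K[X]) (θ : K) (hf : f ≠ 0)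
    (hg : g ≠ 0) (hh : f ^ p - g ^ q ≠ 0) (hj : jac p q f g ≠ 0)
    (he : 1 ≤ rootMultiplicity θ (f ^ p - g ^ q)) :
    q * rootMultiplicity θ (f ^ p - g ^ q) + (p + q) * rootMultiplicity θ f ≤
      p * q * rootMultiplicity θ f + q + q * rootMultiplicity θ (jac p q f g) := by
  set h := f ^ p - g ^ q with hdef
  set α := rootMultiplicity θ f with hα
  set β := rootMultiplicity θ g with hβ
  set e := rootMultiplicity θ h with hedef
  set v := rootMultiplicity θ (jac p q f g) with hv
  have hfd : (X - C θ) ^ α ∣ f := pow_rootMultiplicity_dvd f θ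
  have hgd : (X - C θ) ^ β ∣ g := pow_rootMultiplicity_dvd g θ
  have hhd : (X - C θ) ^ e ∣ h := pow_rootMultiplicity_dvd h θ
  have h1 := dvd_aux (p : K) f h θ α e he hfd hhd
  rw [hdef, jac_left p q hq hp f g] at h1
  have h2 := dvd_aux (q : K) g h θ β e he hgd hhd
  rw [hdef, jac_right p q hq hp f g] at h2
  have hg1 : g ^ (q - 1) * jac p q f g ≠ 0 := mul_ne_zero (pow_ne_zero _ hg) hj
  have hf1 : f ^ (p - 1) * jac p q f g ≠ 0 := mul_ne_zero (pow_ne_zero _ hf) hj
  have h3 : α + e - 1 ≤ (q - 1) * β + v := by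
    have := (le_rootMultiplicity_iff hg1).mpr h1
    rwa [rootMultiplicity_mul hg1, mult_pow g hg] at this
  have h4 : β + e - 1 ≤ (p - 1) * α + v := by
    have := (le_rootMultiplicity_iff hf1).mpr h2
    rwa [rootMultiplicity_mul hf1, mult_pow f hf] at this
  obtain ⟨a, rfl⟩ : ∃ a, q = a + 1 := ⟨q - 1, by omega⟩
  obtain ⟨b, rfl⟩ : ∃ b, p = b + 1 := ⟨p - 1, by omega⟩
  simp only [Nat.add_sub_cancel] at h3 h4
  have h5 : α + e ≤ a * β + v + 1 := by omega
  have h6 : β + e ≤ b * α + v + 1 := by omega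
  have h7 : a * (β + e) ≤ a * (b * α + v + 1) := Nat.mul_le_mul_left _ h6
  nlinarith

/-- polynomials with proportional logarithmic derivatives -/
lemma proportional [CharZero K] (a b : K[X]) (ha : a ≠ 0) (hb : b ≠ 0)
    (h : a * derivative b = derivative a * b) : ∃ c d : K, c ≠ 0 ∧ d ≠ 0 ∧ C c * a = C d * b := by
  classical
  set d := EuclideanDomain.gcd a b with hd
  have hd0 : d ≠ 0 := by
    intro h0
    rw [hd, EuclideanDomain.gcd_eq_zero_iff] at h0
    exact ha h0.1
  obtain ⟨a1, ha1⟩ := EuclideanDomain.gcd_dvd_left a b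
  obtain ⟨b1, hb1⟩ := EuclideanDomain.gcd_dvd_right a b
  rw [← hd] at ha1 hb1
  have hcop : IsCoprime a1 b1 := by
    obtain ⟨u, v, huv⟩ : ∃ u v, d = a * u + b * v :=
      ⟨_, _, EuclideanDomain.gcd_eq_gcd_ab a b⟩
    refine ⟨u, v, ?_⟩
    apply mul_left_cancel₀ hd0
    have : d * (u * a1 + v * b1) = (d * a1) * u + (d * b1) * v := by ring
    rw [this, ← ha1, ← hb1, ← huv, mul_one]
  have hw : wronskian a1 b1 = 0 := by
    have h1 : d ^ 2 * wronskian a1 b1 = 0 := by
      have h2 : d ^ 2 * wronskian a1 b1 = a * derivative b - derivative a * b := by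
        rw [ha1, hb1, wronskian, derivative_mul, derivative_mul]
        ring
      rw [h2, h, sub_self]
    exact (mul_eq_zero.mp h1).resolve_left (pow_ne_zero 2 hd0)
  obtain ⟨h3, h4⟩ := hcop.wronskian_eq_zero_iff.mp hw
  obtain ⟨c, hc⟩ : ∃ c, C c = a1 := by
    have := derivative_eq_zero.mp h3
    exact ⟨_, (eq_C_of_natDegree_eq_zero this).symm⟩
  obtain ⟨e, he⟩ : ∃ e, C e = b1 := by
    have := derivative_eq_zero.mp h4
    exact ⟨_, (eq_C_of_natDegree_eq_zero this).symm⟩
  refine ⟨e, c, ?_, ?_, ?_⟩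
  · rintro rfl
    rw [C_0] at he
    rw [← he, mul_zero] at hb1
    exact hb hb1
  · rintro rfl
    rw [C_0] at hc
    rw [← hc, mul_zero] at ha1
    exact ha ha1
  · rw [ha1, hb1, ← hc, ← he]
    ring

/-- the degenerate case -/
lemma degenerate [CharZero K] (p q : ℕ) (hp : 1 ≤ p) (hq : 1 ≤ q) (f g : K[X]) (hf : f ≠ 0)
    (hh : f ^ p - g ^ q ≠ 0) (hj : jac p q f g = 0) :
    ∃ c d : K, c ≠ 0 ∧ d ≠ 0 ∧ C c * f ^ p = C d * (f ^ p - g ^ q) := by
  apply proportional _ _ (pow_ne_zero _ hf) hh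
  have h1 := jac_left p q hq hp f g
  rw [hj, mul_zero] at h1
  obtain ⟨b, rfl⟩ : ∃ b, p = b + 1 := ⟨p - 1, by omega⟩
  have h2 : derivative (f ^ (b + 1)) = C ((b + 1 : ℕ) : K) * f ^ b * derivative f := by
    rw [derivative_pow]
    simp only [Nat.add_sub_cancel]
  rw [h2]
  linear_combination (f ^ b) * h1

/-- the degree of `jac` -/
lemma jac_natDegree (p q m : ℕ) (hm : 1 ≤ m) (hp : 1 ≤ p) (hq : 1 ≤ q) (f g : K[X])
    (hf : f.natDegree ≤ q * m) (hg : g.natDegree ≤ p * m) (hpq : 2 ≤ (p + q) * m) :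
    (jac p q f g).natDegree ≤ (p + q) * m - 2 := by
  have hqm : 1 ≤ q * m := Nat.mul_pos hq hm
  have hpm : 1 ≤ p * m := Nat.mul_pos hp hm
  have hsum : (p + q) * m = q * m + p * m := by ring
  have hf' : (derivative f).natDegree ≤ q * m - 1 := (natDegree_derivative_le f).trans (by omega)
  have hg' : (derivative g).natDegree ≤ p * m - 1 := (natDegree_derivative_le g).trans (by omega)
  have h1 : (jac p q f g).natDegree ≤ (p + q) * m - 1 := by
    unfold jac
    refine (natDegree_sub_le _ _).trans (max_le ?_ ?_)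
    · rw [mul_assoc]
      refine (natDegree_C_mul_le _ _).trans (natDegree_mul_le.trans ?_)
      omega
    · rw [mul_assoc]
      refine (natDegree_C_mul_le _ _).trans (natDegree_mul_le.trans ?_)
      omega
  have h2 : (jac p q f g).coeff ((p + q) * m - 1) = 0 := by
    unfold jac
    rw [coeff_sub, mul_assoc, mul_assoc, coeff_C_mul, coeff_C_mul]
    have e1 : (p + q) * m - 1 = (q * m - 1) + p * m := by omega
    have e2 : (p + q) * m - 1 = q * m + (p * m - 1) := by omega
    have h3 : (derivative f * g).coeff ((p + q) * m - 1) =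
        (q * m : ℕ) * f.coeff (q * m) * g.coeff (p * m) := by
      rw [e1, coeff_mul_add_eq_of_natDegree_le hf' hg, coeff_derivative]
      have : q * m - 1 + 1 = q * m := by omega
      rw [this]
      have h4 : ((q * m - 1 : ℕ) : K) + 1 = ((q * m : ℕ) : K) := by
        rw [← Nat.cast_succ]
        congr 1
      rw [h4]
      ring
    have h5 : (f * derivative g).coeff ((p + q) * m - 1) =
        (p * m : ℕ) * f.coeff (q * m) * g.coeff (p * m) := by
      rw [e2, coeff_mul_add_eq_of_natDegree_le hf hg', coeff_derivative]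
      have : p * m - 1 + 1 = p * m := by omega
      rw [this]
      have h4 : ((p * m - 1 : ℕ) : K) + 1 = ((p * m : ℕ) : K) := by
        rw [← Nat.cast_succ]
        congr 1
      rw [h4]
      ring
    rw [h3, h5]
    push_cast
    ring
  by_contra hcon
  push Not at hcon
  have h3 : (jac p q f g).natDegree = (p + q) * m - 1 := by omega
  have h4 : (jac p q f g).leadingCoeff = 0 := by
    rw [leadingCoeff, h3]
    exact h2
  rw [leadingCoeff_eq_zero] at h4
  rw [h4, natDegree_zero] at hcon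
  omega

end Pool.Agent.D0H59.Hall
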